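import Pool.Agent.BEN.StmtsB

/-!
# Squad BEN, row SLO: solvability in `X` for a simple eigenvalue
-/

namespace Pool.Agent.BEN.H52

open Set Filter Topology MeasureTheory
open scoped InnerProductSpace ENNReal
open Pool.Agent.BE01 Pool.Agent.BEF

/-- `S` is symmetric. -/
lemma S_symm {X H : Type} [NormedCommRing X] [NormedAlgebra ℝ X] [NormedAddCommGroup H]
    [InnerProductSpace ℝ H] (W : Wx X H) (h k : H) : ⟪W.S h, k⟫_ℝ = ⟪h, W.S k⟫_ℝ := by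
  rw [← W.prp.RR h, ← W.prp.RR k, W.prp.R_symm, W.prp.R_symm]

/-- A solution in `L²` of an equation with right hand side in `X` gives a solution in `X`. -/
lemma lift_sol (hB : BtsStmt) {T : Type} [MeasurableSpace T] {μ : Measure T} [IsFiniteMeasure μ]
    {s : ℕ} {C0 : ℝ} {X : Type} [NormedCommRing X] [NormedAlgebra ℝ X]
    (W : Wx X (Lp ℝ 2 μ)) (hs : 2 ≤ s) (hX : Xok W) (hS : Sbd W s C0) (l : ℝ) (F : X)
    (h : ∃ q : Lp ℝ 2 μ, q - l • W.S q = W.e F) : ∃ x : X, x - l • W.SX x = F := by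
  obtain ⟨q, hq⟩ := h
  obtain ⟨x, hx⟩ := hB T μ s C0 X W hs hX hS q F l (sub_eq_iff_eq_add.1 hq)
  refine ⟨x, W.e_inj ?_⟩
  rw [map_sub, map_smul, W.e_SX, hx, hq]

/-- SLO: the eigenspace and solvability for a simple eigenvalue. -/
theorem slo (hB : BtsStmt) (hF : FreStmt) : SloStmt := by
  intro T _ μ _ s M C0 ω X _ _ W φ hs hX hS hc hω h1 hφ hsimp hodd
  have hφ' : W.e φ = (ω ^ 2) • W.S (W.e φ) := by
    rw [← W.e_SX, ← map_smul, hφ]
  have hne : W.e φ ≠ 0 := by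
    intro h0
    rw [h0, norm_zero] at h1
    exact zero_ne_one h1
  refine ⟨⟨⟨fun _ => h1, ?_⟩, fun _ => hφ⟩, ⟨?_, ?_⟩⟩
  · intro i j hij
    exact absurd (Subsingleton.elim i j) hij
  · intro F hFo
    refine lift_sol hB W hs hX hS (ω ^ 2) F ?_
    exact (hF (Lp ℝ 2 μ) W.S (ω ^ 2) hc (S_symm W)).2 (W.e φ) hne hφ' hsimp (W.e F) (hFo 0)
  · intro n hn hn3 hnM F
    refine lift_sol hB W hs hX hS ((n : ℝ) ^ 2 * ω ^ 2) F ?_
    exact (hF (Lp ℝ 2 μ) W.S ((n : ℝ) ^ 2 * ω ^ 2) hc (S_symm W)).1 (hodd n hn hn3 hnM) (W.e F)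

end Pool.Agent.BEN.H52
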